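import Pool.Agent.helper67.DL.SpecG

/-! # Project dl, module HD: the dual metric of the symmetric Hitchin section is harmonic -/

namespace Pool.Agent.DL

open Matrix Complex
open scoped ComplexOrder Manifold ContDiff

theorem HD_JJ : JJ * JJ = 1 := by
  unfold JJ
  ext a b
  fin_cases a <;> fin_cases b <;> simp [Matrix.mul_apply, Fin.sum_univ_three]

theorem HD_inv : JJ⁻¹ = JJ := Matrix.inv_eq_left_inv HD_JJ

theorem HD_herm : JJᴴ = JJ := by
  unfold JJ
  ext a b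
  fin_cases a <;> fin_cases b <;> simp

theorem HD_det : JJ.det * JJ.det = 1 := by
  rw [← Matrix.det_mul, HD_JJ, Matrix.det_one]

/-- `JJ diag JJ` -/
theorem HD_diag (a b : ℂ) : JJ * diagonal ![a, 1, b] * JJ = diagonal ![b, 1, a] := by
  unfold JJ
  ext i j
  fin_cases i <;> fin_cases j <;>
    simp [Matrix.mul_apply, Fin.sum_univ_three, Matrix.vecMul, dotProduct, Matrix.diagonal_apply]

/-- persymmetric matrices -/
theorem HD_sym (b c : ℂ) : JJ * (!![0, b, c; 1, 0, b; 0, 1, 0])ᵀ * JJ = !![0, b, c; 1, 0, b; 0, 1, 0] := by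
  unfold JJ
  ext i j
  fin_cases i <;> fin_cases j <;> simp [Matrix.mul_apply, Fin.sum_univ_three, Matrix.vecHead, Matrix.vecTail]

theorem HD_dinv (a b : ℂ) (h : a * b = 1) : (diagonal ![a, 1, b] : Matrix (Fin 3) (Fin 3) ℂ)⁻¹ =
    diagonal ![b, 1, a] := by
  apply Matrix.inv_eq_left_inv
  rw [Matrix.diagonal_mul_diagonal]
  rw [← Matrix.diagonal_one]
  congr 1
  funext i
  fin_cases i <;> simp [h, mul_comm b a]

theorem HD_glue (a b : ℂ) (h : a * b = 1) (H : Matrix (Fin 3) (Fin 3) ℂ) :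
    JJ * (((diagonal ![a, 1, b])ᴴ * H * diagonal ![a, 1, b])ᵀ)⁻¹ * JJ =
      (diagonal ![a, 1, b])ᴴ * (JJ * (Hᵀ)⁻¹ * JJ) * diagonal ![a, 1, b] := by
  have hs : (starRingEnd ℂ) a * (starRingEnd ℂ) b = 1 := by rw [← map_mul, h, map_one]
  have e1 : (diagonal ![a, 1, b] : Matrix (Fin 3) (Fin 3) ℂ)ᴴ =
      diagonal ![(starRingEnd ℂ) a, 1, (starRingEnd ℂ) b] := by
    rw [Matrix.diagonal_conjTranspose]
    congr 1
    funext i
    fin_cases i <;> simp
  rw [e1, Matrix.transpose_mul, Matrix.transpose_mul, Matrix.diagonal_transpose,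
    Matrix.diagonal_transpose, Matrix.mul_inv_rev, Matrix.mul_inv_rev, HD_dinv a b h,
    HD_dinv _ _ hs]
  have e2 : (diagonal ![(starRingEnd ℂ) b, 1, (starRingEnd ℂ) a] : Matrix (Fin 3) (Fin 3) ℂ) =
      JJ * diagonal ![(starRingEnd ℂ) a, 1, (starRingEnd ℂ) b] * JJ := (HD_diag _ _).symm
  have e3 : (diagonal ![b, 1, a] : Matrix (Fin 3) (Fin 3) ℂ) = JJ * diagonal ![a, 1, b] * JJ :=
    (HD_diag _ _).symm
  rw [e2, e3]
  calc JJ * (JJ * diagonal ![(starRingEnd ℂ) a, 1, (starRingEnd ℂ) b] * JJ * (Hᵀ)⁻¹ *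
        (JJ * diagonal ![a, 1, b] * JJ)) * JJ
      = (JJ * JJ) * diagonal ![(starRingEnd ℂ) a, 1, (starRingEnd ℂ) b] * (JJ * (Hᵀ)⁻¹ * JJ) *
        diagonal ![a, 1, b] * (JJ * JJ) := by noncomm_ring
    _ = _ := by rw [HD_JJ, one_mul, mul_one]

theorem HD (hGE : GE_stmt) : HD_stmt := by
  intro X _ _ C q₂ q₃ hC hq2 hq3 H hH
  obtain ⟨hHarm, hdet⟩ := hH
  refine ⟨⟨?_, ?_⟩, ?_⟩
  · intro i j x hx
    have hg := hHarm.glue i j x hx
    have hi : C.η i (chartAt ℂ x) x ≠ 0 := hC.2.2.2 i x hx.1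
    have hj : C.η j (chartAt ℂ x) x ≠ 0 := hC.2.2.2 j x hx.2
    have hr : C.rat i j x * C.rat j i x = 1 := by
      unfold Cov.rat quo
      field_simp
    show JJ * ((H j x)ᵀ)⁻¹ * JJ = _
    rw [hg]
    exact HD_glue _ _ hr (H i x)
  · intro i e he
    have h0 := hHarm.loc i e he
    have hO : IsOpen (e.target ∩ e.symm ⁻¹' (hitS C q₂ q₃).C.U i) :=
      e.isOpen_inter_preimage_symm (hC.1 i)
    have hconst : ∀ M : Matrix (Fin 3) (Fin 3) ℂ,
        HM (e.target ∩ e.symm ⁻¹' (hitS C q₂ q₃).C.U i) (fun _ => M) := by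
      intro M a b
      exact differentiableOn_const _
    have h1 := (hGE 3 _ _ _ (fun _ => 1) _ hO h0 (hconst 1) (fun z _ => by simp)).2.2.2
    have hdJ : IsUnit JJ.det := by
      refine isUnit_iff_ne_zero.2 fun h => ?_
      have := HD_det
      rw [h] at this
      simp at this
    have h2 := (hGE 3 _ _ _ (fun _ => JJ) _ hO h1 (hconst JJ) (fun z _ => hdJ)).1
    rw [HD_inv, HD_herm] at h2
    have h3 : (fun z => JJ * ((hitS C q₂ q₃).A i (e.symm z))ᵀ * JJ) =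
        fun z => (hitS C q₂ q₃).A i (e.symm z) := by
      funext z
      exact HD_sym _ _
    rw [h3] at h2
    exact h2
  · intro i x hx
    show (JJ * ((H i x)ᵀ)⁻¹ * JJ).det = 1
    rw [Matrix.det_mul, Matrix.det_mul, Matrix.det_nonsing_inv, Matrix.det_transpose,
      hdet i x hx, Ring.inverse_one, mul_one]
    exact HD_det

end Pool.Agent.DL
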